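import Pool.Agent.Helper52.Inv.MainQ
import Pool.Agent.Helper68.InvPINK
import Pool.Agent.Helper89.InvFROZEN

/-!
# A universal pro-`p` identity for pro-`p` groups with an involution with abelian centralizer

For every odd prime `p` there is ONE element `w ≠ 1` of the free pro-`p` group on two generators
which is killed by every continuous homomorphism to every pro-`p` group `G` that has a continuous
automorphism `φ` with `φ ∘ φ = id` whose fixed points commute.
-/

set_option autoImplicit false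

namespace Pool.Agent.Results.MP_0873fe_al.UniversalIdentity

open Filter Topology

universe u

/-- The normal subgroups of `p`-power index of the free group on `x_1, …, x_n`. -/
structure PNormal (p n : ℕ) where
  /-- the subgroup -/
  sub : Subgroup (FreeGroup (Fin n))
  normal : sub.Normal
  index_eq : ∃ k : ℕ, sub.index = p ^ k

/-- The finite `p`-group `F / N`, for the free group `F` on `x_1, …, x_n`. -/
def PQuot (p n : ℕ) (N : PNormal p n) : Type := FreeGroup (Fin n) ⧸ N.sub

instance (p n : ℕ) (N : PNormal p n) : Group (PQuot p n N) :=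
  @QuotientGroup.Quotient.group _ _ N.sub N.normal

/-- The finite groups `F / N` carry the discrete topology. -/
instance (p n : ℕ) (N : PNormal p n) : TopologicalSpace (PQuot p n N) := ⊥

instance (p n : ℕ) (N : PNormal p n) : DiscreteTopology (PQuot p n N) := ⟨rfl⟩

/-- The canonical homomorphism `F → F / N`. -/
def toPQuot (p n : ℕ) (N : PNormal p n) : FreeGroup (Fin n) →* PQuot p n N :=
  @QuotientGroup.mk' _ _ N.sub N.normal

theorem toPQuot_surjective (p n : ℕ) (N : PNormal p n) (c : PQuot p n N) :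
    ∃ x, toPQuot p n N x = c :=
  QuotientGroup.mk_surjective c

theorem toPQuot_eq_iff (p n : ℕ) (N : PNormal p n) (x y : FreeGroup (Fin n)) :
    toPQuot p n N x = toPQuot p n N y ↔ x⁻¹ * y ∈ N.sub :=
  QuotientGroup.eq

/-- The subgroup of the product of all `F / N`, `N` running through the normal subgroups of
`p`-power index, which consists of the compatible families `w`: if `N ≤ M` and `w_N = x N` for an
element `x` of `F`, then `w_M = x M`. -/
def Compatible (p n : ℕ) : Subgroup ((N : PNormal p n) → PQuot p n N) where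
  carrier := {w | ∀ N M : PNormal p n, N.sub ≤ M.sub →
    ∀ x : FreeGroup (Fin n), w N = toPQuot p n N x → w M = toPQuot p n M x}
  mul_mem' := by
    intro a b ha hb N M h x hx
    obtain ⟨y, hy⟩ := toPQuot_surjective p n N (a N)
    obtain ⟨z, hz⟩ := toPQuot_surjective p n N (b N)
    have hy2 := ha N M h y hy.symm
    have hz2 := hb N M h z hz.symm
    rw [Pi.mul_apply, ← hy, ← hz, ← map_mul, toPQuot_eq_iff] at hx
    rw [Pi.mul_apply, hy2, hz2, ← map_mul, toPQuot_eq_iff]
    exact h hx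
  one_mem' := by
    intro N M h x hx
    rw [Pi.one_apply, ← map_one (toPQuot p n N), toPQuot_eq_iff] at hx
    rw [Pi.one_apply, ← map_one (toPQuot p n M), toPQuot_eq_iff]
    exact h hx
  inv_mem' := by
    intro a ha N M h x hx
    rw [Pi.inv_apply, inv_eq_iff_eq_inv, ← map_inv] at hx
    rw [Pi.inv_apply, inv_eq_iff_eq_inv, ← map_inv]
    exact ha N M h _ hx

/-- The free pro-`p` group `F_n` on `x_1, …, x_n`: the inverse limit of the finite quotients
`F / N` of the free group `F` on `x_1, …, x_n`, `N` running through the normal subgroups of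
`p`-power index. -/
def FreePro (p n : ℕ) : Type := Compatible p n

instance (p n : ℕ) : Group (FreePro p n) := (Compatible p n).toGroup

/-- The topology of the free pro-`p` group is the one of a subspace of the product of the
discrete groups `F / N`. -/
instance (p n : ℕ) : TopologicalSpace (FreePro p n) := instTopologicalSpaceSubtype

section fixed

variable (p : ℕ) (hp : p.Prime) (h2 : 2 < p)
  (G : Type u) [Group G] [TopologicalSpace G] [IsTopologicalGroup G] [CompactSpace G]
  [T2Space G] [TotallyDisconnectedSpace G]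
  (hpro : ∀ U : Subgroup G, IsOpen (U : Set G) → U.Normal → ∃ k : ℕ, U.index = p ^ k)
  (φ : G ≃* G) (hφ : Continuous φ) (hinv : ∀ x, φ (φ x) = x)

include hp h2 hpro hφ hinv in
/-- Square roots of inverted elements: fixed points lift. -/
theorem exists_fixed
    (U : Subgroup G) (hU : IsOpen (U : Set G)) (x : G) (hx : x⁻¹ * φ x ∈ U) :
    ∃ y, φ y = y ∧ x⁻¹ * y ∈ U := by
  classical
  set u := x⁻¹ * φ x with hu
  have hφu : φ u = u⁻¹ := by
    rw [hu, map_mul, map_inv, hinv]
    group
  have hodd : ∀ n : ℕ, ∃ m, p ^ n + 1 = m + m := by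
    intro n
    have : Odd (p ^ n) := (hp.odd_of_ne_two (by omega)).pow
    exact (this.add_one)
  choose m hm using hodd
  let f : ℕ → G := fun n => u ^ (m n)
  let F : Ultrafilter G := (hyperfilter ℕ).map f
  have hlim : (F : Filter G) ≤ 𝓝 F.lim := F.le_nhds_lim
  set v := F.lim with hv
  have ht : Tendsto f (hyperfilter ℕ) (𝓝 v) := hlim
  have hlt : Tendsto (fun n : ℕ => u ^ (p ^ n)) atTop (𝓝 1) := by
    rw [tendsto_def]
    intro O hO
    obtain ⟨O', hO', hopen, h1⟩ := mem_nhds_iff.mp hO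
    obtain ⟨H, hH⟩ := ProfiniteGrp.exist_openNormalSubgroup_sub_open_nhds_of_one hopen h1
    obtain ⟨k, hk⟩ := hpro H.toSubgroup H.isOpen' inferInstance
    rw [mem_atTop_sets]
    refine ⟨k, fun n hn => hO' (hH ?_)⟩
    obtain ⟨l, rfl⟩ := Nat.exists_eq_add_of_le hn
    have h3 : u ^ (p ^ k) ∈ H.toSubgroup := by
      rw [← hk]
      exact Subgroup.pow_index_mem H.toSubgroup u
    change u ^ p ^ (k + l) ∈ H.toSubgroup
    rw [pow_add, pow_mul]
    exact H.toSubgroup.pow_mem h3 _
  have hhyp : (hyperfilter ℕ : Filter ℕ) ≤ atTop := Nat.hyperfilter_le_atTop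
  have hvv : v * v = u := by
    have e1 : Tendsto (fun n => f n * f n) (hyperfilter ℕ) (𝓝 (v * v)) := ht.mul ht
    have e2 : Tendsto (fun n => f n * f n) (hyperfilter ℕ) (𝓝 (1 * u)) := by
      have : (fun n => f n * f n) = fun n => u ^ (p ^ n) * u := by
        funext n
        change u ^ m n * u ^ m n = _
        rw [← pow_add, ← hm n, pow_succ]
      rw [this]
      exact (hlt.mono_left hhyp).mul_const u
    rw [one_mul] at e2
    exact tendsto_nhds_unique e1 e2
  have hφv : φ v = v⁻¹ := by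
    have e1 : Tendsto (fun n => φ (f n)) (hyperfilter ℕ) (𝓝 (φ v)) :=
      (hφ.tendsto v).comp ht
    have e2 : Tendsto (fun n => φ (f n)) (hyperfilter ℕ) (𝓝 v⁻¹) := by
      have : (fun n => φ (f n)) = fun n => (f n)⁻¹ := by
        funext n
        change φ (u ^ m n) = (u ^ m n)⁻¹
        rw [map_pow, hφu, inv_pow]
      rw [this]
      exact ht.inv
    exact tendsto_nhds_unique e1 e2
  have hvU : v ∈ U := by
    have hcl : IsClosed (U : Set G) := Subgroup.isClosed_of_isOpen U hU
    exact hcl.mem_of_tendsto ht (Eventually.of_forall fun n => U.pow_mem hx _)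
  refine ⟨x * v, ?_, by simpa using hvU⟩
  have h4 : φ x = x * (v * v) := by
    rw [hvv, hu]; group
  rw [map_mul, hφv, h4]
  group

include hp h2 hpro hφ hinv in
theorem exists_NN
    (hcomm : ∀ a b : G, φ a = a → φ b = b → a * b = b * a)
    (g : Fin 2 → G) (U : Subgroup G) (hU : IsOpen (U : Set G)) (hUn : U.Normal) :
    ∃ M, Pool.Agent.Helper89.Inv.NN p M ∧ M ≤ U.comap (FreeGroup.lift g) := by
  classical
  let V : Subgroup G := U ⊓ U.comap φ.toMonoidHom
  have hVopen : IsOpen (V : Set G) := by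
    refine hU.inter ?_
    exact hU.preimage hφ
  have hVn : V.Normal := by
    have : (U.comap φ.toMonoidHom).Normal := hUn.comap _
    exact Subgroup.normal_inf_normal _ _
  have hVφ : ∀ x, x ∈ V → φ x ∈ V := by
    intro x hx
    refine ⟨hx.2, ?_⟩
    change φ (φ x) ∈ U
    rw [hinv]
    exact hx.1
  have hfin : Finite (G ⧸ V) := V.quotient_finite_of_isOpen hVopen
  obtain ⟨k, hk⟩ := hpro V hVopen hVn
  have hpg : IsPGroup p (G ⧸ V) := by
    apply IsPGroup.of_card (n := k)
    rw [← Subgroup.index_eq_card, hk]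
  let ψ : G ⧸ V →* G ⧸ V := QuotientGroup.map V V φ.toMonoidHom (fun x hx => hVφ x hx)
  have hψ : ∀ x : G, ψ (QuotientGroup.mk x) = QuotientGroup.mk (φ x) := fun x => rfl
  have hψψ : ∀ x, ψ (ψ x) = x := by
    intro x
    obtain ⟨x, rfl⟩ := QuotientGroup.mk_surjective x
    rw [hψ, hψ, hinv]
  let Ψ : G ⧸ V ≃* G ⧸ V := MonoidHom.toMulEquiv ψ ψ (MonoidHom.ext hψψ) (MonoidHom.ext hψψ)
  have hlift : ∀ a : G ⧸ V, ψ a = a → ∃ y : G, φ y = y ∧ QuotientGroup.mk y = a := by
    intro a ha
    obtain ⟨x, rfl⟩ := QuotientGroup.mk_surjective a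
    rw [hψ] at ha
    have hx : x⁻¹ * φ x ∈ V := QuotientGroup.eq.mp ha.symm
    obtain ⟨y, hy, hxy⟩ := exists_fixed p hp h2 G hpro φ hφ hinv V hVopen x hx
    exact ⟨y, hy, (QuotientGroup.eq.mpr hxy).symm⟩
  -- a copy of the quotient in the lowest universe
  let e : Shrink.{0} (G ⧸ V) ≃* G ⧸ V := Shrink.mulEquiv
  let Ψ' : Shrink.{0} (G ⧸ V) ≃* Shrink.{0} (G ⧸ V) := (e.trans Ψ).trans e.symm
  have hfin' : Finite (Shrink.{0} (G ⧸ V)) := Finite.of_equiv _ e.toEquiv.symm
  refine ⟨((e.symm.toMonoidHom.comp (QuotientGroup.mk' V)).comp (FreeGroup.lift g)).ker,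
    ⟨Shrink.{0} (G ⧸ V), inferInstance, hfin', hpg.of_equiv e.symm, Ψ', ?_, ?_, _, rfl⟩, ?_⟩
  · intro x
    have h : Ψ (e x) = ψ (e x) := rfl
    change e.symm (Ψ (e (e.symm (Ψ (e x))))) = x
    rw [e.apply_symm_apply]
    change e.symm (ψ (ψ (e x))) = x
    rw [hψψ, e.symm_apply_apply]
  · intro a b ha hb
    have ha' : ψ (e a) = e a := by
      have : e (e.symm (Ψ (e a))) = e a := congrArg e ha
      rwa [e.apply_symm_apply] at this
    have hb' : ψ (e b) = e b := by
      have : e (e.symm (Ψ (e b))) = e b := congrArg e hb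
      rwa [e.apply_symm_apply] at this
    obtain ⟨a', ha1, ha2⟩ := hlift _ ha'
    obtain ⟨b', hb1, hb2⟩ := hlift _ hb'
    apply e.injective
    rw [map_mul, map_mul, ← ha2, ← hb2]
    exact congrArg (QuotientGroup.mk : G → G ⧸ V) (hcomm a' b' ha1 hb1)
  · intro x hx
    rw [MonoidHom.mem_ker, MonoidHom.comp_apply, MonoidHom.comp_apply] at hx
    have h1 : QuotientGroup.mk' V (FreeGroup.lift g x) = 1 := by
      apply e.symm.injective
      rw [map_one]
      exact hx
    have h3 : FreeGroup.lift g x ∈ V := (QuotientGroup.eq_one_iff _).mp h1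
    exact h3.1

end fixed

/-- The canonical homomorphism from the free group to the free pro-`p` group. -/
def can (p n : ℕ) : FreeGroup (Fin n) →* FreePro p n where
  toFun x := ⟨fun N => toPQuot p n N x, by
    intro N M h y hy
    rw [toPQuot_eq_iff] at hy ⊢
    exact h hy⟩
  map_one' := Subtype.ext (funext fun N => map_one (toPQuot p n N))
  map_mul' x y := Subtype.ext (funext fun N => map_mul (toPQuot p n N) x y)

/-- The intersection of two normal subgroups of `p`-power index. -/
def inf (p : ℕ) (hp : p.Prime) (n : ℕ) (N M : PNormal p n) : PNormal p n where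
  sub := N.sub ⊓ M.sub
  normal := by
    have := N.normal
    have := M.normal
    exact Subgroup.normal_inf_normal _ _
  index_eq := by
    have hNn := N.normal
    obtain ⟨k, hk⟩ := N.index_eq
    obtain ⟨l, hl⟩ := M.index_eq
    have h1 : (N.sub ⊓ M.sub).index ∣ p ^ (k + l) := by
      rw [← Subgroup.relIndex_mul_index (inf_le_right : N.sub ⊓ M.sub ≤ M.sub),
        Subgroup.inf_relIndex_right, pow_add, ← hk, ← hl]
      exact Nat.mul_dvd_mul (Subgroup.relIndex_dvd_index_of_normal _ _) dvd_rfl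
    obtain ⟨m, _, hm⟩ := (Nat.dvd_prime_pow hp).mp h1
    exact ⟨m, hm⟩

theorem eq_one_of_le {p n : ℕ} (w : FreePro p n) {N M : PNormal p n} (h : N.sub ≤ M.sub)
    (hw : w.1 N = 1) : w.1 M = 1 := by
  have h1 := w.2 N M h 1 (by rw [hw, map_one])
  rw [h1, map_one]

/-- An open neighbourhood of `1` in the free pro-`p` group contains the kernel of a projection. -/
theorem exists_ker (p : ℕ) (hp : p.Prime) (n : ℕ) (O : Set (FreePro p n)) (hO : IsOpen O)
    (h1 : (1 : FreePro p n) ∈ O) : ∃ N : PNormal p n, ∀ w : FreePro p n, w.1 N = 1 → w ∈ O := by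
  have h2 : O ∈ 𝓝 (1 : FreePro p n) := hO.mem_nhds h1
  have h3 : 𝓝 (1 : FreePro p n) =
      ⨅ N : PNormal p n, 𝓟 {w : FreePro p n | w.1 N = 1} := by
    refine Eq.trans (nhds_subtype_eq_comap (p := fun w => w ∈ Compatible p n)
      (h := (Compatible p n).one_mem)) ?_
    rw [nhds_pi, Filter.pi, comap_iInf]
    refine iInf_congr fun N => ?_
    rw [comap_comap, nhds_discrete, ← principal_singleton, comap_principal]
    rfl
  rw [h3] at h2
  have hne : Nonempty (PNormal p n) := ⟨⟨⊤, inferInstance, 0, by simp⟩⟩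
  rw [mem_iInf_of_directed] at h2
  · obtain ⟨N, hN⟩ := h2
    exact ⟨N, fun w hw => mem_principal.mp hN hw⟩
  · intro N M
    refine ⟨inf p hp n N M, ?_, ?_⟩
    · apply principal_mono.mpr
      intro w hw
      exact eq_one_of_le w (inf_le_left : N.sub ⊓ M.sub ≤ N.sub) hw
    · apply principal_mono.mpr
      intro w hw
      exact eq_one_of_le w (inf_le_right : N.sub ⊓ M.sub ≤ M.sub) hw

/-- **Theorem.** For every odd prime `p` there is one element `w ≠ 1` of the free pro-`p` group
`F_2` which every continuous homomorphism `θ : F_2 → G` kills, for every pro-`p` group `G` that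
has a continuous automorphism `φ` with `φ ∘ φ = id` whose fixed points commute. -/
theorem result (p : ℕ) (hp : p.Prime) (hp2 : 2 < p) :
    ∃ w : FreePro p 2, w ≠ 1 ∧
      ∀ (G : Type u) [Group G] [TopologicalSpace G] [IsTopologicalGroup G] [CompactSpace G]
        [T2Space G] [TotallyDisconnectedSpace G],
        (∀ U : Subgroup G, IsOpen (U : Set G) → U.Normal → ∃ k : ℕ, U.index = p ^ k) →
        ∀ φ : G ≃ₜ* G, (∀ x, φ (φ x) = x) →
          (∀ a b : G, φ a = a → φ b = b → a * b = b * a) →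
          ∀ θ : FreePro p 2 →* G, Continuous θ → θ w = 1 := by
  classical
  obtain ⟨N₀, hN₀n, hN₀i, hN₀⟩ := Pool.Agent.Helper52.Inv.finiteStatement
    (fun r hr I K hI g h hg hh m S hS α hrel =>
      Pool.Agent.Helper68.Inv.pink r hr I K hI g h hg hh m S hS α hrel) p hp hp2
  have hNN : ∀ M, Pool.Agent.Helper89.Inv.NN p M → ¬ M ≤ N₀ := by
    rintro M ⟨P, iP, fP, hP, φ, h2, hc, θ, rfl⟩
    exact hN₀ P hP φ h2 hc θ
  -- the ultrafilter
  let A : {M // Pool.Agent.Helper89.Inv.NN p M} → Set (FreeGroup (Fin 2)) :=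
    fun M => (M.1 : Set _) \ (N₀ : Set _)
  let 𝓕 : Filter (FreeGroup (Fin 2)) :=
    ⨅ M : {M // Pool.Agent.Helper89.Inv.NN p M}, 𝓟 (A M)
  have hdir : Directed (· ≥ ·) fun M : {M // Pool.Agent.Helper89.Inv.NN p M} => 𝓟 (A M) := by
    rintro ⟨M, hM⟩ ⟨M', hM'⟩
    refine ⟨⟨M ⊓ M', Pool.Agent.Helper89.Inv.NN_inf p hM hM'⟩, ?_, ?_⟩
    · apply principal_mono.mpr
      exact Set.sdiff_subset_sdiff_left (by
        intro x hx
        exact hx.1)
    · apply principal_mono.mpr
      exact Set.sdiff_subset_sdiff_left (by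
        intro x hx
        exact hx.2)
  have : Nonempty {M // Pool.Agent.Helper89.Inv.NN p M} :=
    ⟨⟨⊤, Pool.Agent.Helper89.Inv.NN_top p⟩⟩
  have hne : 𝓕.NeBot := by
    apply iInf_neBot_of_directed hdir
    rintro ⟨M, hM⟩
    rw [principal_neBot_iff]
    exact Set.sdiff_nonempty.mpr (hNN M hM)
  let 𝓤 : Ultrafilter (FreeGroup (Fin 2)) := Ultrafilter.of 𝓕
  have h𝓤 : (𝓤 : Filter _) ≤ 𝓕 := Ultrafilter.of_le 𝓕
  have hmem : ∀ M, Pool.Agent.Helper89.Inv.NN p M →
      ∀ᶠ x in (𝓤 : Filter (FreeGroup (Fin 2))), x ∈ M ∧ x ∉ N₀ := by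
    intro M hM
    have : A ⟨M, hM⟩ ∈ 𝓕 :=
      mem_iInf_of_mem (⟨M, hM⟩ : {M // Pool.Agent.Helper89.Inv.NN p M}) (mem_principal_self _)
    exact h𝓤 this
  -- existence of limit classes
  have hex : ∀ N : PNormal p 2, ∃ c : PQuot p 2 N,
      ∀ᶠ x in (𝓤 : Filter (FreeGroup (Fin 2))), toPQuot p 2 N x = c := by
    intro N
    obtain ⟨k, hk⟩ := N.index_eq
    have hi : N.sub.index ≠ 0 := by
      rw [hk]
      exact pow_ne_zero _ hp.ne_zero
    have hfi : N.sub.FiniteIndex := ⟨hi⟩
    have hf : Finite (PQuot p 2 N) := inferInstanceAs (Finite (FreeGroup (Fin 2) ⧸ N.sub))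
    by_contra hcon
    push Not at hcon
    have h1 : ∀ c, ∀ᶠ x in (𝓤 : Filter (FreeGroup (Fin 2))), toPQuot p 2 N x ≠ c := by
      intro c
      exact hcon c
    have h2 := (eventually_all (l := (𝓤 : Filter (FreeGroup (Fin 2))))).mpr h1
    obtain ⟨x, hx⟩ := h2.exists
    exact hx _ rfl
  choose W hW using hex
  let w : FreePro p 2 := ⟨W, by
    intro N M h y hy
    obtain ⟨x, hx1, hx2⟩ := ((hW N).and (hW M)).exists
    rw [← hx1, toPQuot_eq_iff] at hy
    rw [← hx2, toPQuot_eq_iff]
    exact h hy⟩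
  refine ⟨w, ?_, ?_⟩
  · intro hcon
    obtain ⟨x, hx1, hx2⟩ := ((hW ⟨N₀, hN₀n, hN₀i⟩).and
      (hmem ⊤ (Pool.Agent.Helper89.Inv.NN_top p))).exists
    apply hx2.2
    have h3 : W ⟨N₀, hN₀n, hN₀i⟩ = 1 :=
      congrArg (fun v : FreePro p 2 => v.1 ⟨N₀, hN₀n, hN₀i⟩) hcon
    rw [h3, ← map_one (toPQuot p 2 ⟨N₀, hN₀n, hN₀i⟩)] at hx1
    have h4 := (toPQuot_eq_iff p 2 ⟨N₀, hN₀n, hN₀i⟩ 1 x).mp hx1.symm
    rwa [inv_one, one_mul] at h4
  · intro G _ _ _ _ _ _ hpro φ hinv hcomm θ hθ
    by_contra hcon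
    obtain ⟨U, hU⟩ := ProfiniteGrp.exist_openNormalSubgroup_sub_open_nhds_of_one
      (isOpen_compl_singleton : IsOpen ({θ w}ᶜ : Set G))
      (fun h => hcon (Eq.symm h))
    obtain ⟨N, hN⟩ := exists_ker p hp 2 (θ ⁻¹' (U.toSubgroup : Set G)) (U.isOpen'.preimage hθ)
      (by
        change θ 1 ∈ U.toSubgroup
        rw [map_one]
        exact U.toSubgroup.one_mem)
    obtain ⟨M, hM, hMU⟩ := exists_NN p hp hp2 G hpro φ.toMulEquiv φ.continuous hinv hcomm
      (fun i => θ (can p 2 (FreeGroup.of i))) U.toSubgroup U.isOpen' inferInstance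
    have hlift : FreeGroup.lift (fun i => θ (can p 2 (FreeGroup.of i))) = θ.comp (can p 2) := by
      ext i
      simp
    rw [hlift] at hMU
    obtain ⟨x, hx1, hx2⟩ := ((hW N).and (hmem M hM)).exists
    have h4 : θ (can p 2 x) ∈ U.toSubgroup := hMU hx2.1
    have h5 : θ (w * (can p 2 x)⁻¹) ∈ U.toSubgroup := by
      apply hN
      change W N * (toPQuot p 2 N x)⁻¹ = 1
      rw [hx1, mul_inv_cancel]
    have h6 := U.toSubgroup.mul_mem h5 h4
    rw [← map_mul, inv_mul_cancel_right] at h6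
    exact hU h6 rfl

end Pool.Agent.Results.MP_0873fe_al.UniversalIdentity
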